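import Mathlib

/-!
# Skew products over `z ↦ z^d` with a one-dimensional stable set

Points of `ℂ³` are written `(z₁, (z₂, z₃)) ∈ ℂ × ℂ²`.
-/

set_option autoImplicit false

open Set Topology Filter Complex

namespace Pool.Agent.Results.MP_e40659_an.StableLine

/-- The skew product `F(z₁, w) = (z₁^d, G_{z₁}(w))` on `ℂ × ℂ²`. -/
def skew (d : ℕ) (G : ℂ → ℂ × ℂ → ℂ × ℂ) (z : ℂ × (ℂ × ℂ)) : ℂ × (ℂ × ℂ) := (z.1 ^ d, G z.1 z.2)

/-- The hypotheses of the problem: `(z₁, w) ↦ G_{z₁}(w)` is holomorphic on `ℂ × ℂ²`, and for `|z₁| = 1`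
the map `G_{z₁}` is a holomorphic automorphism of `ℂ²` fixing the origin, all the eigenvalues of its
derivative at the origin having modulus `< 1`. -/
structure IsAdmissible (G : ℂ → ℂ × ℂ → ℂ × ℂ) : Prop where
  holomorphic : Differentiable ℂ (fun z : ℂ × (ℂ × ℂ) => G z.1 z.2)
  automorphism : ∀ l : ℂ, ‖l‖ = 1 → ∃ g : ℂ × ℂ → ℂ × ℂ, Differentiable ℂ g ∧
    Function.LeftInverse g (G l) ∧ Function.RightInverse g (G l)
  fixes : ∀ l : ℂ, ‖l‖ = 1 → G l 0 = 0
  attracting : ∀ l : ℂ, ‖l‖ = 1 → ∀ (m : ℂ) (v : ℂ × ℂ), v ≠ 0 → fderiv ℂ (G l) 0 v = m • v → ‖m‖ < 1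

/-- The stable manifold of `p = (p₁, 0)` in the fibre over `p₁`, as a subset of `ℂ²`. -/
def stable (d : ℕ) (G : ℂ → ℂ × ℂ → ℂ × ℂ) (p : ℂ) : Set (ℂ × ℂ) :=
  {w | Tendsto (fun n : ℕ => ‖(skew d G)^[n] (p, w) - (skew d G)^[n] (p, 0)‖) atTop (𝓝 0)}

/-! ### Proof -/

/-- `N_l = c [[l, -1], [l², -l]]`, a nilpotent matrix -/
noncomputable def Nn (c l : ℂ) : (ℂ × ℂ) →L[ℂ] (ℂ × ℂ) :=
  ((c * l) • ContinuousLinearMap.fst ℂ ℂ ℂ - c • ContinuousLinearMap.snd ℂ ℂ ℂ).prod
    ((c * l ^ 2) • ContinuousLinearMap.fst ℂ ℂ ℂ - (c * l) • ContinuousLinearMap.snd ℂ ℂ ℂ)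

theorem Nn_apply (c l : ℂ) (w : ℂ × ℂ) :
    Nn c l w = (c * l * w.1 - c * w.2, c * l ^ 2 * w.1 - c * l * w.2) := by
  simp [Nn]

/-- `A_l = 1/2 + N_l` -/
noncomputable def Al (c l : ℂ) : (ℂ × ℂ) →L[ℂ] (ℂ × ℂ) :=
  (1 / 2 : ℂ) • ContinuousLinearMap.id ℂ (ℂ × ℂ) + Nn c l

theorem Al_apply (c l : ℂ) (w : ℂ × ℂ) : Al c l w =
    (1 / 2 * w.1 + (c * l * w.1 - c * w.2), 1 / 2 * w.2 + (c * l ^ 2 * w.1 - c * l * w.2)) := by
  ext <;> simp [Al, Nn_apply]

/-- the inverse `2 - 4 N_l` -/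
noncomputable def Bl (c l : ℂ) : (ℂ × ℂ) →L[ℂ] (ℂ × ℂ) :=
  (2 : ℂ) • ContinuousLinearMap.id ℂ (ℂ × ℂ) - (4 : ℂ) • Nn c l

theorem Bl_apply (c l : ℂ) (w : ℂ × ℂ) : Bl c l w =
    (2 * w.1 - 4 * (c * l * w.1 - c * w.2), 2 * w.2 - 4 * (c * l ^ 2 * w.1 - c * l * w.2)) := by
  ext <;> simp [Bl, Nn_apply]

theorem BA (c l : ℂ) (w : ℂ × ℂ) : Bl c l (Al c l w) = w := by
  rw [Bl_apply, Al_apply]
  ext
  · simp only; ring
  · simp only; ring

theorem AB (c l : ℂ) (w : ℂ × ℂ) : Al c l (Bl c l w) = w := by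
  rw [Al_apply, Bl_apply]
  ext
  · simp only; ring
  · simp only; ring

theorem admissible (c : ℂ) : IsAdmissible (fun l w => Al c l w) where
  holomorphic := by
    simp only [Al_apply]
    fun_prop
  automorphism := fun l _ => ⟨Bl c l, (Bl c l).differentiable, BA c l, AB c l⟩
  fixes := fun l _ => map_zero _
  attracting := by
    intro l _ m v hv h
    have h0 : fderiv ℂ (fun w => Al c l w) 0 = Al c l := (Al c l).hasFDerivAt.fderiv
    rw [h0, Al_apply] at h
    obtain ⟨x, y⟩ := v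
    obtain ⟨h1, h2⟩ := Prod.mk.inj h
    simp only [smul_eq_mul] at h1 h2
    have hx : (m - 1 / 2) ^ 2 * x = 0 := by
      have e1 : (m - 1 / 2) * x = c * l * x - c * y := by linear_combination -h1
      have e2 : (m - 1 / 2) * y = c * l ^ 2 * x - c * l * y := by linear_combination -h2
      linear_combination (m - 1 / 2) * e1 + c * l * e1 - c * e2
    have hy : (m - 1 / 2) ^ 2 * y = 0 := by
      have e1 : (m - 1 / 2) * x = c * l * x - c * y := by linear_combination -h1
      have e2 : (m - 1 / 2) * y = c * l ^ 2 * x - c * l * y := by linear_combination -h2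
      linear_combination (m - 1 / 2) * e2 + c * l ^ 2 * e1 - c * l * e2
    have hm : (m - 1 / 2) ^ 2 = 0 := by
      by_contra hne
      apply hv
      rw [(mul_eq_zero.1 hx).resolve_left hne, (mul_eq_zero.1 hy).resolve_left hne]
      rfl
    have : m = 1 / 2 := sub_eq_zero.1 (pow_eq_zero_iff two_ne_zero |>.1 hm)
    rw [this]
    norm_num

/-- The orbit of `(p, w)` when `p` is a point of period two. -/
theorem iter_even {d : ℕ} {c p q : ℂ} (hp : p ^ d = q) (hq : q ^ d = p) (w : ℂ × ℂ) (n : ℕ) :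
    (skew d (fun l w => Al c l w))^[2 * n] (p, w) = (p, (fun w => Al c q (Al c p w))^[n] w) := by
  induction n with
  | zero => rfl
  | succ n ih =>
    rw [show 2 * (n + 1) = 2 * n + 1 + 1 by ring, Function.iterate_succ_apply',
      Function.iterate_succ_apply', ih, Function.iterate_succ_apply']
    simp only [skew]
    rw [hp, hq]

theorem tendsto_even_odd {u : ℕ → ℝ} (h0 : Tendsto (fun n => u (2 * n)) atTop (𝓝 0))
    (h1 : Tendsto (fun n => u (2 * n + 1)) atTop (𝓝 0)) : Tendsto u atTop (𝓝 0) := by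
  rw [Metric.tendsto_atTop] at *
  intro ε hε
  obtain ⟨N0, hN0⟩ := h0 ε hε
  obtain ⟨N1, hN1⟩ := h1 ε hε
  refine ⟨2 * (N0 + N1) + 1, fun n hn => ?_⟩
  rcases Nat.even_or_odd' n with ⟨k, rfl | rfl⟩
  · exact hN0 k (by omega)
  · exact hN1 k (by omega)

theorem no_inj {f : ℂ × ℂ → ℂ} (hf : Differentiable ℂ f) : ¬ Function.Injective f := by
  intro hinj
  have h1 : Differentiable ℂ (fun z : ℂ => f (z, 0)) := hf.comp (by fun_prop)
  have h2 : AnalyticAt ℂ (fun z : ℂ => f (z, 0)) 0 := h1.analyticAt 0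
  rcases h2.eventually_constant_or_nhds_le_map_nhds with h | h
  · have h3 : ∀ᶠ z : ℂ in 𝓝[≠] 0, f (z, 0) = f (0, 0) := h.filter_mono nhdsWithin_le_nhds
    obtain ⟨z, hz, hz0⟩ := (h3.and self_mem_nhdsWithin).exists
    exact hz0 (Prod.mk.inj (hinj hz)).1
  · have h3 : Tendsto (fun w : ℂ => f (0, w)) (𝓝[≠] 0) (𝓝 (f (0, 0))) := by
      have : Continuous fun w : ℂ => f (0, w) := hf.continuous.comp (by fun_prop)
      exact (this.tendsto 0).mono_left nhdsWithin_le_nhds
    have h4 : range (fun z : ℂ => f (z, 0)) ∈ 𝓝 (f (0, 0)) :=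
      h (Filter.mem_of_superset (Filter.image_mem_map univ_mem) (image_subset_range _ _))
    obtain ⟨w, ⟨z, hz⟩, hw0⟩ := ((h3.eventually h4).and self_mem_nhdsWithin).exists
    exact hw0 (Prod.mk.inj (hinj hz)).2.symm

/-- **A negative answer.** For every `d ≥ 2` there are a map `F` satisfying the hypotheses of the problem
(the fibre maps `G_l` are linear, and both eigenvalues of `G_l` are `1/2`, for all `l ∈ ℂ`) and a point
`p₁` of the unit circle such that the stable manifold of `(p₁, 0, 0)` is a complex line `ℂ v ⊆ ℂ²`; so it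
is not the image of `ℂ²` under an injective holomorphic map, and it is not biholomorphic to `ℂ²`. -/
theorem result : ∀ d : ℕ, 2 ≤ d → ∃ (G : ℂ → ℂ × ℂ → ℂ × ℂ) (p : ℂ), IsAdmissible G ∧ ‖p‖ = 1 ∧
    (∃ v : ℂ × ℂ, v ≠ 0 ∧ stable d G p = {w | ∃ t : ℂ, w = t • v}) ∧
    ¬ ∃ φ : ℂ × ℂ → ℂ × ℂ, Differentiable ℂ φ ∧ Function.Injective φ ∧ range φ = stable d G p := by
  intro d hd
  -- the point of period two
  set p : ℂ := exp (2 * Real.pi * I / ((d + 1 : ℕ) : ℂ)) with hpdef
  have hprim : IsPrimitiveRoot p (d + 1) := Complex.isPrimitiveRoot_exp (d + 1) (by omega)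
  have hp0 : p ≠ 0 := exp_ne_zero _
  have hnp : ‖p‖ = 1 := hprim.norm'_eq_one (by omega)
  set q : ℂ := p⁻¹ with hq
  have hpd : p ^ d = q := by
    rw [hq]
    refine eq_inv_of_mul_eq_one_left ?_
    rw [← pow_succ]
    exact hprim.pow_eq_one
  have hqd : q ^ d = p := by
    rw [hq, inv_pow, hpd, hq, inv_inv]
  have hpq : p * q = 1 := mul_inv_cancel₀ hp0
  have hne : p - q ≠ 0 := by
    intro h
    have h1 : p ^ 2 = 1 := by
      rw [sub_eq_zero] at h
      rw [pow_two]
      nth_rw 2 [h]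
      exact hpq
    have h2 := hprim.dvd_of_pow_eq_one 2 h1
    have := Nat.le_of_dvd (by norm_num) h2
    omega
  set c : ℂ := 15 * I / (8 * (p - q)) with hc
  have hcpq : c * (p - q) = 15 * I / 8 := by
    rw [hc]; field_simp
  have hc0 : c ≠ 0 := by
    rw [hc]
    exact div_ne_zero (mul_ne_zero (by norm_num) I_ne_zero) (mul_ne_zero (by norm_num) hne)
  -- the matrix `M = A_q A_p`
  set a11 : ℂ := 1 / 4 + c / 2 * (p + q) + c ^ 2 * (1 - p ^ 2) with ha11
  set a12 : ℂ := -c + c ^ 2 * (p - q) with ha12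
  set a21 : ℂ := c / 2 * (p ^ 2 + q ^ 2) - c ^ 2 * (p - q) with ha21
  set a22 : ℂ := 1 / 4 - c / 2 * (p + q) + c ^ 2 * (1 - q ^ 2) with ha22
  have hM : ∀ w : ℂ × ℂ, Al c q (Al c p w) = (a11 * w.1 + a12 * w.2, a21 * w.1 + a22 * w.2) := by
    intro w
    rw [Al_apply, Al_apply]
    ext
    · simp only
      rw [ha11, ha12]
      linear_combination (c ^ 2 * w.1) * hpq
    · simp only
      rw [ha21, ha22]
      linear_combination (c ^ 2 * (q - p) * w.1 + c ^ 2 * w.2) * hpq
  have hcc : c ^ 2 * (p - q) ^ 2 = -(225 / 64) := by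
    have : (c * (p - q)) ^ 2 = (15 * I / 8) ^ 2 := by rw [hcpq]
    rw [mul_pow] at this
    rw [this, div_pow, mul_pow, I_sq]; norm_num
  have htr : a11 + a22 = 4 + 1 / 64 := by
    rw [ha11, ha22]
    linear_combination -hcc - 2 * c ^ 2 * hpq
  have hdet : a11 * a22 - a12 * a21 = 1 / 16 := by
    rw [ha11, ha12, ha21, ha22]
    linear_combination (-(c ^ 2 / 2) + c ^ 3 * (p - q) + c ^ 4 * (p * q - 1)) * hpq
  have ha12' : a12 ≠ 0 := by
    have e : a12 = c * (-1 + 15 * I / 8) := by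
      rw [ha12, ← hcpq]; ring
    rw [e]
    refine mul_ne_zero hc0 fun h => ?_
    have := congrArg Complex.re h
    simp at this
  -- the left eigenvector for the eigenvalue 4
  set ρ : ℂ × ℂ → ℂ := fun w => (a11 - 1 / 64) * w.1 + a12 * w.2 with hρ
  have hρc : Continuous ρ := by
    rw [hρ]; fun_prop
  have hρM : ∀ w, ρ (Al c q (Al c p w)) = 4 * ρ w := by
    intro w
    rw [hM, hρ]
    simp only
    linear_combination (a12 * w.2 + a11 * w.1) * htr - w.1 * hdet
  have hρn : ∀ (w : ℂ × ℂ) (n : ℕ), ρ ((fun w => Al c q (Al c p w))^[n] w) = 4 ^ n * ρ w := by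
    intro w n
    induction n with
    | zero => simp
    | succ n ih => rw [Function.iterate_succ_apply', hρM, ih, pow_succ]; ring
  have hMs : ∀ w, ρ w = 0 → Al c q (Al c p w) = (1 / 64 : ℂ) • w := by
    intro w hw
    rw [hM]
    rw [hρ] at hw
    simp only at hw
    have e1 : a11 * w.1 + a12 * w.2 = 1 / 64 * w.1 := by linear_combination hw
    have e2 : a21 * w.1 + a22 * w.2 = 1 / 64 * w.2 := by
      have : a12 * (a21 * w.1 + a22 * w.2 - 1 / 64 * w.2) = 0 := by
        linear_combination (a22 - 1 / 64) * hw - w.1 * hdet + (w.1 / 64) * htr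
      rcases mul_eq_zero.1 this with h | h
      · exact absurd h ha12'
      · exact sub_eq_zero.1 h
    exact Prod.ext e1 e2
  have hMsn : ∀ w, ρ w = 0 → ∀ n : ℕ,
      (fun w => Al c q (Al c p w))^[n] w = ((1 / 64 : ℂ) ^ n) • w := by
    intro w hw n
    induction n with
    | zero => simp
    | succ n ih =>
      rw [Function.iterate_succ_apply', ih]
      rw [map_smul, map_smul, hMs w hw, smul_smul, pow_succ]
  have hS : stable d (fun l w => Al c l w) p = {w | ρ w = 0} := by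
    ext w
    constructor
    · intro h
      have h1 : Tendsto (fun n : ℕ => ‖(skew d (fun l w => Al c l w))^[2 * n] (p, w) -
          (skew d (fun l w => Al c l w))^[2 * n] (p, 0)‖) atTop (𝓝 0) :=
        h.comp (tendsto_id.const_mul_atTop' (by norm_num : 0 < 2))
      have h2 : ∀ n : ℕ, (fun w => Al c q (Al c p w))^[n] (0 : ℂ × ℂ) = 0 := by
        intro n
        induction n with
        | zero => rfl
        | succ n ih => rw [Function.iterate_succ_apply', ih]; simp
      have h3 : Tendsto (fun n : ℕ => (fun w => Al c q (Al c p w))^[n] w) atTop (𝓝 0) := by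
        rw [tendsto_zero_iff_norm_tendsto_zero]
        refine squeeze_zero (fun n => norm_nonneg _) (fun n => ?_) h1
        rw [iter_even hpd hqd, iter_even hpd hqd, h2]
        exact le_trans (by simp) (norm_snd_le _)
      have h4 : Tendsto (fun n : ℕ => 4 ^ n * ρ w) atTop (𝓝 0) := by
        have h5 := (hρc.tendsto 0).comp h3
        have h6 : ρ 0 = 0 := by rw [hρ]; simp
        rw [h6] at h5
        refine h5.congr fun n => hρn w n
      show ρ w = 0
      by_contra hne0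
      have h7 : ∀ᶠ n : ℕ in atTop, ‖4 ^ n * ρ w‖ < ‖ρ w‖ := by
        have := h4.norm
        rw [norm_zero] at this
        exact this.eventually (gt_mem_nhds (norm_pos_iff.2 hne0))
      obtain ⟨n, hn⟩ := h7.exists
      rw [norm_mul, norm_pow] at hn
      have h8 : (1 : ℝ) ≤ ‖(4 : ℂ)‖ ^ n := one_le_pow₀ (by norm_num)
      have h9 := norm_nonneg (ρ w)
      nlinarith
    · intro hw
      have hw' : ρ w = 0 := hw
      have h2 : ∀ n : ℕ, (fun w => Al c q (Al c p w))^[n] (0 : ℂ × ℂ) = 0 := by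
        intro n
        induction n with
        | zero => rfl
        | succ n ih => rw [Function.iterate_succ_apply', ih]; simp
      have hz : Tendsto (fun n : ℕ => ((1 / 64 : ℂ) ^ n) • w) atTop (𝓝 0) := by
        have h3 : Tendsto (fun n : ℕ => (1 / 64 : ℂ) ^ n) atTop (𝓝 0) :=
          tendsto_pow_atTop_nhds_zero_of_norm_lt_one (by norm_num)
        simpa using h3.smul_const w
      refine tendsto_even_odd ?_ ?_
      · have h4 : ∀ n : ℕ, ‖(skew d (fun l w => Al c l w))^[2 * n] (p, w) -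
          (skew d (fun l w => Al c l w))^[2 * n] (p, 0)‖ = ‖((1 / 64 : ℂ) ^ n) • w‖ := by
          intro n
          rw [iter_even hpd hqd, iter_even hpd hqd, h2, hMsn w hw']
          simp
        simp only [h4]
        simpa using hz.norm
      · have h4 : ∀ n : ℕ, ‖(skew d (fun l w => Al c l w))^[2 * n + 1] (p, w) -
          (skew d (fun l w => Al c l w))^[2 * n + 1] (p, 0)‖ =
            ‖Al c p (((1 / 64 : ℂ) ^ n) • w)‖ := by
          intro n
          rw [Function.iterate_succ_apply', Function.iterate_succ_apply', iter_even hpd hqd,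
            iter_even hpd hqd, h2, hMsn w hw']
          simp [skew]
        simp only [h4]
        have h5 := ((Al c p).continuous.tendsto 0).comp hz
        rw [map_zero] at h5
        simpa using h5.norm
  have hv : {w : ℂ × ℂ | ρ w = 0} = {w | ∃ t : ℂ, w = t • (a12, 1 / 64 - a11)} := by
    ext w
    constructor
    · intro hw
      have hw' : (a11 - 1 / 64) * w.1 + a12 * w.2 = 0 := hw
      refine ⟨w.1 / a12, Prod.ext ?_ ?_⟩
      · simp [ha12']
      · simp only [Prod.smul_mk, smul_eq_mul]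
        rw [div_mul_eq_mul_div, eq_div_iff ha12']
        linear_combination hw'
    · rintro ⟨t, rfl⟩
      show (a11 - 1 / 64) * (t • (a12, 1 / 64 - a11)).1 + a12 * (t • (a12, 1 / 64 - a11)).2 = 0
      simp only [Prod.smul_mk, smul_eq_mul]
      ring
  refine ⟨fun l w => Al c l w, p, admissible c, hnp, ⟨(a12, 1 / 64 - a11), ?_, ?_⟩, ?_⟩
  · intro h
    exact ha12' (Prod.mk.inj h).1
  · rw [hS, hv]
  · rintro ⟨φ, hφ, hinj, hr⟩
    rw [hS] at hr
    refine no_inj (f := fun z => (φ z).1) (by fun_prop) fun x y hxy => hinj ?_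
    have hx : ρ (φ x) = 0 := by
      have : φ x ∈ {w | ρ w = 0} := hr ▸ mem_range_self x
      exact this
    have hy : ρ (φ y) = 0 := by
      have : φ y ∈ {w | ρ w = 0} := hr ▸ mem_range_self y
      exact this
    have hxy' : (φ x).1 = (φ y).1 := hxy
    refine Prod.ext hxy' ?_
    rw [hρ] at hx hy
    simp only at hx hy
    have : a12 * ((φ x).2 - (φ y).2) = 0 := by
      rw [hxy'] at hx
      linear_combination hx - hy
    exact sub_eq_zero.1 ((mul_eq_zero.1 this).resolve_left ha12')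

end Pool.Agent.Results.MP_e40659_an.StableLine
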